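import Pool.Agent.Helper877_Ball.Three
import Pool.Agent.R154.Steiner.Min

set_option autoImplicit false

open scoped MeasureTheory ENNReal Topology InnerProductSpace
open MeasureTheory Set Filter
open Pool.Agent.R154.Steiner

namespace Pool.Agent.Helper877_Ball

variable {E : Type*} [NormedAddCommGroup E] [InnerProductSpace ℝ E]

/-- The vector with coordinates `a, b, c`. -/
def vec (e : Fin 3 → E) (a b c : ℝ) : E := a • e 0 + b • e 1 + c • e 2

lemma inner_vec {e : Fin 3 → E} (he : Orthonormal ℝ e) (a b c a' b' c' : ℝ) :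
    ⟪vec e a b c, vec e a' b' c'⟫_ℝ = a * a' + b * b' + c * c' := by
  have h00 : ⟪e 0, e 0⟫_ℝ = 1 := by rw [real_inner_self_eq_norm_sq, he.1 0]; norm_num
  have h11 : ⟪e 1, e 1⟫_ℝ = 1 := by rw [real_inner_self_eq_norm_sq, he.1 1]; norm_num
  have h22 : ⟪e 2, e 2⟫_ℝ = 1 := by rw [real_inner_self_eq_norm_sq, he.1 2]; norm_num
  have h01 : ⟪e 0, e 1⟫_ℝ = 0 := he.2 (by decide)
  have h02 : ⟪e 0, e 2⟫_ℝ = 0 := he.2 (by decide)
  have h12 : ⟪e 1, e 2⟫_ℝ = 0 := he.2 (by decide)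
  have h10 : ⟪e 1, e 0⟫_ℝ = 0 := he.2 (by decide)
  have h20 : ⟪e 2, e 0⟫_ℝ = 0 := he.2 (by decide)
  have h21 : ⟪e 2, e 1⟫_ℝ = 0 := he.2 (by decide)
  unfold vec
  simp only [inner_add_left, inner_add_right, real_inner_smul_left, real_inner_smul_right,
    h00, h11, h22, h01, h02, h12, h10, h20, h21]
  ring

lemma norm_vec {e : Fin 3 → E} (he : Orthonormal ℝ e) (a b c : ℝ) :
    ‖vec e a b c‖ = Real.sqrt (a ^ 2 + b ^ 2 + c ^ 2) := by
  rw [← Real.sqrt_sq (norm_nonneg (vec e a b c)), ← real_inner_self_eq_norm_sq, inner_vec he]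
  congr 1
  ring

lemma vec_add (e : Fin 3 → E) (a b c a' b' c' : ℝ) :
    vec e a b c + vec e a' b' c' = vec e (a + a') (b + b') (c + c') := by
  unfold vec
  simp only [add_smul]
  abel

lemma vec_sub (e : Fin 3 → E) (a b c a' b' c' : ℝ) :
    vec e a b c - vec e a' b' c' = vec e (a - a') (b - b') (c - c') := by
  unfold vec
  simp only [sub_smul]
  abel

lemma vec_smul (e : Fin 3 → E) (t a b c : ℝ) :
    t • vec e a b c = vec e (t * a) (t * b) (t * c) := by
  unfold vec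
  simp only [smul_add, smul_smul]

lemma vec_zero (e : Fin 3 → E) : vec e 0 0 0 = 0 := by
  unfold vec; simp

lemma vec_continuous (e : Fin 3 → E) {X : Type*} [TopologicalSpace X] {a b c : X → ℝ}
    (ha : Continuous a) (hb : Continuous b) (hc : Continuous c) :
    Continuous fun x => vec e (a x) (b x) (c x) := by
  unfold vec
  fun_prop

/-- The distance of the centre of the tripod at the angle `θ` from the origin. -/
noncomputable def hh (θ : ℝ) : ℝ := Real.sqrt (1 - (θ / 64) ^ 2)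

lemma hh_sq {θ : ℝ} (h0 : 0 ≤ θ) (h1 : θ ≤ 1) : hh θ ^ 2 = 1 - (θ / 64) ^ 2 := by
  unfold hh
  rw [Real.sq_sqrt]
  nlinarith

lemma hh_nonneg (θ : ℝ) : 0 ≤ hh θ := Real.sqrt_nonneg _

lemma hh_le (θ : ℝ) : hh θ ≤ 1 := by
  unfold hh
  rw [Real.sqrt_le_one]
  have := sq_nonneg (θ / 64)
  linarith

lemma hh_ge {θ : ℝ} (h0 : 0 ≤ θ) (h1 : θ ≤ 1) : 1 - θ / 64 ≤ hh θ := by
  unfold hh
  apply Real.le_sqrt_of_sq_le
  nlinarith

lemma hh_lt {θ : ℝ} (h0 : 0 < θ) (h1 : θ ≤ 1) : hh θ < 1 := by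
  have h2 := hh_sq h0.le h1
  have h3 : 0 < (θ / 64) ^ 2 := by positivity
  nlinarith [hh_nonneg θ]

lemma hh_zero : hh 0 = 1 := by unfold hh; simp

lemma hh_continuous : Continuous hh := by unfold hh; fun_prop

/-- The centre of the tripod at the angle `θ`. -/
noncomputable def PP (e : Fin 3 → E) (θ : ℝ) : E :=
  vec e (hh θ * Real.cos θ) (hh θ * Real.sin θ) 0

/-- The upward unit vector. -/
noncomputable def ff (e : Fin 3 → E) : E := vec e 0 0 1

/-- The two downward directions of the tripod at the angle `θ`. -/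
noncomputable def ww (e : Fin 3 → E) (β θ : ℝ) : E :=
  vec e (-(β * (Real.sqrt 3 / 2)) * Real.sin θ) (β * (Real.sqrt 3 / 2) * Real.cos θ) (-(1/2))

/-- The spike at the angle `θ`: it joins the upper terminal of the tripod (`t = 0`) to the
backbone (`t = 1`). -/
noncomputable def spike (e : Fin 3 → E) (θ t : ℝ) : E :=
  vec e (((1 - t) * hh θ + t * (1 + θ)) * Real.cos θ) (((1 - t) * hh θ + t * (1 + θ)) * Real.sin θ)
    ((1 - t) * (θ / 64) + t * θ)

/-- The backbone. -/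
noncomputable def beta (e : Fin 3 → E) (θ : ℝ) : E :=
  vec e ((1 + θ) * Real.cos θ) ((1 + θ) * Real.sin θ) θ

lemma spike_one (e : Fin 3 → E) (θ : ℝ) : spike e θ 1 = beta e θ := by
  unfold spike beta
  congr 1 <;> ring

lemma spike_zero (e : Fin 3 → E) (θ : ℝ) : spike e θ 0 = PP e θ + (θ / 64) • ff e := by
  unfold spike PP ff
  rw [vec_smul, vec_add]
  congr 1 <;> ring

lemma PP_zero (e : Fin 3 → E) : PP e 0 = beta e 0 := by
  unfold PP beta
  rw [hh_zero]
  congr 1 <;> ring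

lemma spike_eq_zero (e : Fin 3 → E) (t : ℝ) : spike e 0 t = beta e 0 := by
  unfold spike beta
  rw [hh_zero]
  congr 1 <;> ring

lemma spike_affine (e : Fin 3 → E) (θ t : ℝ) :
    spike e θ t = (1 - t) • spike e θ 0 + t • spike e θ 1 := by
  unfold spike
  rw [vec_smul, vec_smul, vec_add]
  congr 1 <;> ring

lemma PP_continuous (e : Fin 3 → E) : Continuous (PP e) := by
  unfold PP
  have := hh_continuous
  exact vec_continuous e (by fun_prop) (by fun_prop) (by fun_prop)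

lemma ww_continuous (e : Fin 3 → E) (β : ℝ) : Continuous (ww e β) := by
  unfold ww
  exact vec_continuous e (by fun_prop) (by fun_prop) (by fun_prop)

lemma beta_continuous (e : Fin 3 → E) : Continuous (beta e) := by
  unfold beta
  exact vec_continuous e (by fun_prop) (by fun_prop) (by fun_prop)

lemma spike_continuous (e : Fin 3 → E) : Continuous (fun p : ℝ × ℝ => spike e p.1 p.2) := by
  unfold spike
  have := hh_continuous
  exact vec_continuous e (by fun_prop) (by fun_prop) (by fun_prop)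

lemma norm_ff {e : Fin 3 → E} (he : Orthonormal ℝ e) : ‖ff e‖ = 1 := by
  unfold ff; rw [norm_vec he]; norm_num

lemma norm_ww {e : Fin 3 → E} (he : Orthonormal ℝ e) {β : ℝ} (hβ : β ^ 2 = 1) (θ : ℝ) :
    ‖ww e β θ‖ = 1 := by
  unfold ww
  rw [norm_vec he]
  have h3 : Real.sqrt 3 ^ 2 = 3 := Real.sq_sqrt (by norm_num)
  have h1 := Real.sin_sq_add_cos_sq θ
  have : (-(β * (Real.sqrt 3 / 2)) * Real.sin θ) ^ 2 + (β * (Real.sqrt 3 / 2) * Real.cos θ) ^ 2
      + (-(1/2)) ^ 2 = 1 := by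
    have : (-(β * (Real.sqrt 3 / 2)) * Real.sin θ) ^ 2 + (β * (Real.sqrt 3 / 2) * Real.cos θ) ^ 2
      + (-(1/2)) ^ 2 = β ^ 2 * (Real.sqrt 3 ^ 2 / 4) * (Real.sin θ ^ 2 + Real.cos θ ^ 2) + 1/4 := by
      ring
    rw [this, h3, h1, hβ]; norm_num
  rw [this, Real.sqrt_one]

lemma sum_ww (e : Fin 3 → E) (θ : ℝ) : ff e + ww e 1 θ + ww e (-1) θ = 0 := by
  unfold ff ww
  rw [vec_add, vec_add, ← vec_zero e]
  congr 1 <;> ring

lemma norm_low {e : Fin 3 → E} (he : Orthonormal ℝ e) {β : ℝ} (hβ : β ^ 2 = 1) {θ : ℝ}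
    (h0 : 0 ≤ θ) (h1 : θ ≤ 1) : ‖PP e θ + (θ / 64) • ww e β θ‖ = 1 := by
  have hs := hh_sq h0 h1
  unfold PP ww
  rw [vec_smul, vec_add, norm_vec he]
  have h3 : Real.sqrt 3 ^ 2 = 3 := Real.sq_sqrt (by norm_num)
  have h1 := Real.sin_sq_add_cos_sq θ
  set s := θ / 64
  set h := hh θ
  have : (h * Real.cos θ + s * (-(β * (Real.sqrt 3 / 2)) * Real.sin θ)) ^ 2 +
      (h * Real.sin θ + s * (β * (Real.sqrt 3 / 2) * Real.cos θ)) ^ 2 +
      (0 + s * (-(1/2))) ^ 2 =
      (h ^ 2 + s ^ 2 * β ^ 2 * (Real.sqrt 3 ^ 2 / 4)) * (Real.sin θ ^ 2 + Real.cos θ ^ 2)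
        + s ^ 2 / 4 := by ring
  rw [this, h3, h1, hβ]
  have h4 : (h ^ 2 + s ^ 2 * 1 * (3 / 4)) * 1 + s ^ 2 / 4 = 1 := by linarith
  rw [h4, Real.sqrt_one]

lemma norm_PP {e : Fin 3 → E} (he : Orthonormal ℝ e) (θ : ℝ) : ‖PP e θ‖ = hh θ := by
  unfold PP
  rw [norm_vec he]
  have : (hh θ * Real.cos θ) ^ 2 + (hh θ * Real.sin θ) ^ 2 + 0 ^ 2 =
      hh θ ^ 2 * (Real.sin θ ^ 2 + Real.cos θ ^ 2) := by ring
  rw [this, Real.sin_sq_add_cos_sq, mul_one, Real.sqrt_sq (hh_nonneg θ)]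

lemma norm_cyl {e : Fin 3 → E} (he : Orthonormal ℝ e) (r θ η : ℝ) :
    ‖vec e (r * Real.cos θ) (r * Real.sin θ) η‖ = Real.sqrt (r ^ 2 + η ^ 2) := by
  rw [norm_vec he]
  congr 1
  have : (r * Real.cos θ) ^ 2 + (r * Real.sin θ) ^ 2 + η ^ 2 =
      r ^ 2 * (Real.sin θ ^ 2 + Real.cos θ ^ 2) + η ^ 2 := by ring
  rw [this, Real.sin_sq_add_cos_sq, mul_one]

lemma norm_spike {e : Fin 3 → E} (he : Orthonormal ℝ e) {θ t : ℝ} (h0 : 0 ≤ θ) (h1 : θ ≤ 1)
    (ht0 : 0 ≤ t) (ht1 : t ≤ 1) : 1 ≤ ‖spike e θ t‖ := by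
  unfold spike
  rw [norm_cyl he]
  apply Real.le_sqrt_of_sq_le
  have hs := hh_sq h0 h1
  have h2 := hh_le θ
  have h3 := hh_nonneg θ
  have h4 : hh θ ≤ (1 - t) * hh θ + t * (1 + θ) := by nlinarith
  have h5 : θ / 64 ≤ (1 - t) * (θ / 64) + t * θ := by nlinarith
  have h6 : 0 ≤ θ / 64 := by positivity
  nlinarith

lemma norm_beta {e : Fin 3 → E} (he : Orthonormal ℝ e) {θ : ℝ} (h0 : 0 ≤ θ) :
    1 + θ ≤ ‖beta e θ‖ := by
  unfold beta
  rw [norm_cyl he]
  apply Real.le_sqrt_of_sq_le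
  nlinarith [sq_nonneg θ]

/-- A point in the half-plane at the angle `φ` is far from the centre at the angle `θ`. -/
lemma far {e : Fin 3 → E} (he : Orthonormal ℝ e) {θ φ : ℝ} (h0 : 0 ≤ θ) (h1 : θ ≤ 1)
    (hθ : |θ - φ| ≤ 1) (r η : ℝ) :
    |θ - φ| / 2 ≤ dist (PP e θ) (vec e (r * Real.cos φ) (r * Real.sin φ) η) := by
  have hn : ‖vec e (-Real.sin φ) (Real.cos φ) 0‖ = 1 := by
    rw [norm_vec he]
    have : (-Real.sin φ) ^ 2 + Real.cos φ ^ 2 + 0 ^ 2 = Real.sin φ ^ 2 + Real.cos φ ^ 2 := by ring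
    rw [this, Real.sin_sq_add_cos_sq, Real.sqrt_one]
  have h2 := abs_real_inner_le_norm (PP e θ - vec e (r * Real.cos φ) (r * Real.sin φ) η)
    (vec e (-Real.sin φ) (Real.cos φ) 0)
  rw [hn, mul_one, ← dist_eq_norm] at h2
  refine le_trans ?_ h2
  have h3 : ⟪PP e θ - vec e (r * Real.cos φ) (r * Real.sin φ) η,
      vec e (-Real.sin φ) (Real.cos φ) 0⟫_ℝ = hh θ * Real.sin (θ - φ) := by
    unfold PP
    rw [vec_sub, inner_vec he, Real.sin_sub]
    ring
  rw [h3, abs_mul, abs_of_nonneg (hh_nonneg θ)]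
  have h4 := Real.mul_abs_le_abs_sin (x := θ - φ) (hθ.trans (by linarith [Real.pi_gt_three]))
  have h5 : (3:ℝ) / 5 ≤ 2 / Real.pi := by
    rw [div_le_div_iff₀ (by norm_num) Real.pi_pos]
    linarith [Real.pi_lt_d2]
  have h6 := hh_ge h0 h1
  have h7 : 0 ≤ |θ - φ| := abs_nonneg _
  have h8 : 3 / 5 * |θ - φ| ≤ |Real.sin (θ - φ)| :=
    (mul_le_mul_of_nonneg_right h5 h7).trans h4
  have h9 : (63:ℝ) / 64 ≤ hh θ := by linarith
  nlinarith [mul_le_mul h9 h8 (by positivity) (hh_nonneg θ)]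

lemma beta_lip {e : Fin 3 → E} (he : Orthonormal ℝ e) :
    LipschitzOnWith 7 (beta e) (Icc 0 1) := by
  refine LipschitzOnWith.of_dist_le_mul fun a ha b hb => ?_
  rw [dist_eq_norm]
  unfold beta
  rw [vec_sub]
  unfold vec
  refine (norm_add_le _ _).trans ((add_le_add_left (norm_add_le _ _) _).trans ?_)
  rw [norm_smul, norm_smul, norm_smul, he.1 0, he.1 1, he.1 2, mul_one, mul_one, mul_one]
  have hc : |Real.cos a - Real.cos b| ≤ |a - b| := Real.abs_cos_sub_cos_le a b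
  have hs : |Real.sin a - Real.sin b| ≤ |a - b| := Real.abs_sin_sub_sin_le a b
  have h1 : ‖(1 + a) * Real.cos a - (1 + b) * Real.cos b‖ ≤ 3 * |a - b| := by
    have : (1 + a) * Real.cos a - (1 + b) * Real.cos b =
      (a - b) * Real.cos a + (1 + b) * (Real.cos a - Real.cos b) := by ring
    rw [this]
    refine (norm_add_le _ _).trans ?_
    rw [norm_mul, norm_mul, Real.norm_eq_abs, Real.norm_eq_abs, Real.norm_eq_abs,
      Real.norm_eq_abs, abs_of_nonneg (by linarith [hb.1] : (0:ℝ) ≤ 1 + b)]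
    have h2 := Real.abs_cos_le_one a
    nlinarith [abs_nonneg (a - b), abs_nonneg (Real.cos a - Real.cos b), hb.1, hb.2]
  have h2 : ‖(1 + a) * Real.sin a - (1 + b) * Real.sin b‖ ≤ 3 * |a - b| := by
    have : (1 + a) * Real.sin a - (1 + b) * Real.sin b =
      (a - b) * Real.sin a + (1 + b) * (Real.sin a - Real.sin b) := by ring
    rw [this]
    refine (norm_add_le _ _).trans ?_
    rw [norm_mul, norm_mul, Real.norm_eq_abs, Real.norm_eq_abs, Real.norm_eq_abs,
      Real.norm_eq_abs, abs_of_nonneg (by linarith [hb.1] : (0:ℝ) ≤ 1 + b)]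
    have h2 := Real.abs_sin_le_one a
    nlinarith [abs_nonneg (a - b), abs_nonneg (Real.sin a - Real.sin b), hb.1, hb.2]
  have h3 : ((7 : NNReal) : ℝ) = 7 := rfl
  rw [h3, Real.dist_eq]
  rw [← Real.norm_eq_abs] at h1 h2 ⊢
  linarith

/-- The angles of the tripods. -/
noncomputable def th (i : ℕ) : ℝ := (1 / 2) ^ i

lemma th_pos (i : ℕ) : 0 < th i := by unfold th; positivity

lemma th_le (i : ℕ) : th i ≤ 1 := by
  unfold th
  exact pow_le_one₀ (by norm_num) (by norm_num)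

/-- The angles of the tripods and their limit. -/
def Th : Set ℝ := insert 0 (range th)

lemma Th_compact : IsCompact Th := by
  have h : Tendsto th atTop (𝓝 0) :=
    tendsto_pow_atTop_nhds_zero_of_lt_one (by norm_num) (by norm_num)
  exact h.isCompact_insert_range

lemma Th_nonneg {φ : ℝ} (h : φ ∈ Th) : 0 ≤ φ := by
  rcases h with rfl | ⟨i, rfl⟩
  · exact le_rfl
  · exact (th_pos i).le

lemma Th_le {φ : ℝ} (h : φ ∈ Th) : φ ≤ 1 := by
  rcases h with rfl | ⟨i, rfl⟩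
  · exact zero_le_one
  · exact th_le i

lemma th_half {i j : ℕ} (h : i < j) : th j ≤ th i / 2 := by
  have h1 : th j ≤ th (i + 1) := by
    unfold th
    exact pow_le_pow_of_le_one (by norm_num) (by norm_num) h
  have h2 : th (i + 1) = th i / 2 := by unfold th; rw [pow_succ]; ring
  rw [← h2]; exact h1

lemma Th_sep {φ : ℝ} (hφ : φ ∈ Th) {i : ℕ} (hne : φ ≠ th i) :
    th i / 2 ≤ |th i - φ| ∧ φ / 2 ≤ |th i - φ| := by
  have hp := th_pos i
  rcases hφ with rfl | ⟨j, rfl⟩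
  · rw [sub_zero, abs_of_pos hp]
    constructor <;> linarith
  · have hj := th_pos j
    have hij : i ≠ j := fun h => hne (by rw [h])
    rcases lt_or_gt_of_ne hij with h | h
    · have := th_half h
      rw [abs_of_nonneg (by linarith)]
      constructor <;> linarith
    · have := th_half h
      rw [abs_of_nonpos (by linarith)]
      constructor <;> linarith

lemma Th_abs {φ : ℝ} (hφ : φ ∈ Th) (i : ℕ) : |th i - φ| ≤ 1 := by
  rw [abs_le]
  have h1 := th_pos i
  have h2 := th_le i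
  have h3 := Th_nonneg hφ
  have h4 := Th_le hφ
  constructor <;> linarith

/-- The connected part of the set of terminals. -/
def KK (e : Fin 3 → E) : Set E :=
  (beta e '' Icc 0 1) ∪ (fun p : ℝ × ℝ => spike e p.1 p.2) '' (Th ×ˢ Icc 0 1)

/-- The legs of the tripods in the directions `w`. -/
def Leg (e : Fin 3 → E) (w : ℝ → E) : Set E :=
  (fun p : ℝ × ℝ => PP e p.1 + (p.2 * (p.1 / 64)) • w p.1) '' (Th ×ˢ Icc 0 1)

/-- The set of terminals. -/
def AA (e : Fin 3 → E) : Set E :=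
  KK e ∪ ((fun θ => PP e θ + (θ / 64) • ww e 1 θ) '' Th ∪
    (fun θ => PP e θ + (θ / 64) • ww e (-1) θ) '' Th)

/-- The tree. -/
def SS (e : Fin 3 → E) : Set E :=
  KK e ∪ (Leg e (fun _ => ff e) ∪ (Leg e (ww e 1) ∪ Leg e (ww e (-1))))

lemma KK_compact (e : Fin 3 → E) : IsCompact (KK e) :=
  (isCompact_Icc.image (beta_continuous e)).union
    ((Th_compact.prod isCompact_Icc).image (spike_continuous e))

lemma Leg_compact (e : Fin 3 → E) {w : ℝ → E} (hw : Continuous w) : IsCompact (Leg e w) := by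
  refine (Th_compact.prod isCompact_Icc).image ?_
  have := PP_continuous e
  fun_prop

lemma AA_compact (e : Fin 3 → E) : IsCompact (AA e) := by
  have h1 := PP_continuous e
  have h2 := ww_continuous e 1
  have h3 := ww_continuous e (-1)
  exact (KK_compact e).union ((Th_compact.image (by fun_prop)).union
    (Th_compact.image (by fun_prop)))

lemma SS_compact (e : Fin 3 → E) : IsCompact (SS e) :=
  (KK_compact e).union ((Leg_compact e continuous_const).union
    ((Leg_compact e (ww_continuous e 1)).union (Leg_compact e (ww_continuous e (-1)))))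

lemma AA_sub (e : Fin 3 → E) : AA e ⊆ SS e := by
  refine union_subset subset_union_left (union_subset ?_ ?_)
  · rintro _ ⟨θ, hθ, rfl⟩
    exact Or.inr (Or.inr (Or.inl ⟨(θ, 1), ⟨hθ, zero_le_one, le_rfl⟩, by simp⟩))
  · rintro _ ⟨θ, hθ, rfl⟩
    exact Or.inr (Or.inr (Or.inr ⟨(θ, 1), ⟨hθ, zero_le_one, le_rfl⟩, by simp⟩))

lemma norm_KK {e : Fin 3 → E} (he : Orthonormal ℝ e) {x : E} (hx : x ∈ KK e) : 1 ≤ ‖x‖ := by
  rcases hx with ⟨θ, hθ, rfl⟩ | ⟨⟨θ, t⟩, ⟨hθ, ht⟩, rfl⟩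
  · have := norm_beta he hθ.1
    linarith [hθ.1]
  · exact norm_spike he (Th_nonneg hθ) (Th_le hθ) ht.1 ht.2

lemma norm_AA {e : Fin 3 → E} (he : Orthonormal ℝ e) {x : E} (hx : x ∈ AA e) : 1 ≤ ‖x‖ := by
  rcases hx with hx | ⟨θ, hθ, rfl⟩ | ⟨θ, hθ, rfl⟩
  · exact norm_KK he hx
  · exact (norm_low he (by norm_num) (Th_nonneg hθ) (Th_le hθ)).ge
  · exact (norm_low he (by norm_num) (Th_nonneg hθ) (Th_le hθ)).ge

lemma AA_ball {e : Fin 3 → E} (he : Orthonormal ℝ e) : AA e ∩ Metric.ball 0 1 = ∅ := by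
  ext x
  simp only [mem_inter_iff, mem_empty_iff_false, iff_false, not_and]
  intro hx hx2
  have h1 := norm_AA he hx
  rw [mem_ball_zero_iff] at hx2
  linarith

/-- The part of `KK` near the centre `i` lies above the upper terminal `i`. -/
lemma KK_near {e : Fin 3 → E} (he : Orthonormal ℝ e) (i : ℕ) {x : E} (hx : x ∈ KK e)
    (hd : dist x (PP e (th i)) ≤ 4 * (th i / 64)) : th i / 64 ≤ ⟪x - PP e (th i), ff e⟫_ℝ := by
  have hp := th_pos i
  have hle := th_le i
  rcases hx with ⟨φ, hφ, rfl⟩ | ⟨⟨φ, t⟩, ⟨hφ, ht⟩, rfl⟩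
  · exfalso
    have h1 := norm_beta he hφ.1
    have h2 : ‖beta e φ‖ ≤ ‖PP e (th i)‖ + dist (beta e φ) (PP e (th i)) := by
      rw [dist_eq_norm]
      have := norm_add_le (PP e (th i)) (beta e φ - PP e (th i))
      rwa [add_sub_cancel] at this
    rw [norm_PP he] at h2
    have h3 := hh_le (th i)
    have h4 : φ ≤ th i / 16 := by linarith
    have h5 : |th i - φ| = th i - φ := abs_of_nonneg (by linarith)
    have h6 := far he hp.le hle (φ := φ) (by rw [h5]; linarith [hφ.1]) (1 + φ) φ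
    rw [h5, dist_comm] at h6
    have h7 : dist (vec e ((1 + φ) * Real.cos φ) ((1 + φ) * Real.sin φ) φ) (PP e (th i)) =
      dist (beta e φ) (PP e (th i)) := rfl
    rw [h7] at h6
    linarith
  · by_cases hne : φ = th i
    · subst hne
      have h1 : ⟪spike e (th i) t - PP e (th i), ff e⟫_ℝ = (1 - t) * (th i / 64) + t * th i := by
        unfold spike PP ff
        rw [vec_sub, inner_vec he]
        ring
      show th i / 64 ≤ ⟪spike e (th i) t - PP e (th i), ff e⟫_ℝ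
      rw [h1]
      nlinarith [ht.1, ht.2]
    · exfalso
      obtain ⟨h1, h2⟩ := Th_sep hφ hne
      have h6 := far he hp.le hle (φ := φ) (Th_abs hφ i) ((1 - t) * hh φ + t * (1 + φ))
        ((1 - t) * (φ / 64) + t * φ)
      rw [dist_comm] at h6
      have h7 : dist (spike e φ t) (PP e (th i)) ≤ 4 * (th i / 64) := hd
      unfold spike at h7
      linarith

lemma PP_sep {e : Fin 3 → E} (he : Orthonormal ℝ e) {φ : ℝ} (hφ : φ ∈ Th) {i : ℕ}
    (hne : φ ≠ th i) : (th i + φ) / 8 ≤ dist (PP e (th i)) (PP e φ) := by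
  obtain ⟨h1, h2⟩ := Th_sep hφ hne
  have h3 := far he (th_pos i).le (th_le i) (φ := φ) (Th_abs hφ i) (hh φ) 0
  have h4 : vec e (hh φ * Real.cos φ) (hh φ * Real.sin φ) 0 = PP e φ := rfl
  rw [h4] at h3
  linarith

lemma PP_inj {e : Fin 3 → E} (he : Orthonormal ℝ e) :
    Function.Injective fun i : ℕ => PP e (th i) := by
  intro i j hij
  by_contra hne
  have hne' : th j ≠ th i := by
    intro h
    rcases lt_or_gt_of_ne hne with h1 | h1
    · have := th_half h1
      have := th_pos i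
      linarith
    · have := th_half h1
      have := th_pos j
      linarith
  have h1 := PP_sep he (φ := th j) (Or.inr ⟨j, rfl⟩) hne'
  have h2 : PP e (th i) = PP e (th j) := hij
  rw [h2, dist_self] at h1
  linarith [th_pos i, th_pos j]

lemma PP_dist {e : Fin 3 → E} (he : Orthonormal ℝ e) (i j : ℕ) (hij : i ≠ j) :
    4 * (th i / 64) + 4 * (th j / 64) < dist (PP e (th i)) (PP e (th j)) := by
  have hne' : th j ≠ th i := by
    intro h
    rcases lt_or_gt_of_ne hij with h1 | h1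
    · have := th_half h1
      have := th_pos i
      linarith
    · have := th_half h1
      have := th_pos j
      linarith
  have h1 := PP_sep he (φ := th j) (Or.inr ⟨j, rfl⟩) hne'
  linarith [th_pos i, th_pos j]

end Pool.Agent.Helper877_Ball
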