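import Pool.Agent.R154.Steiner.Net

set_option autoImplicit false

open scoped MeasureTheory ENNReal Topology InnerProductSpace
open MeasureTheory Set Filter
open Pool.Agent.R154.Steiner

namespace Pool.Agent.Helper877_Ball

section metric

variable {E : Type*} [MetricSpace E] [MeasurableSpace E] [BorelSpace E]

/-- A compact connected set of finite length through three points is at least as long as a
tripod through these points. -/
theorem three_point {X : Set E} (hXc : IsCompact X) (hX : IsPreconnected X) (hfin : μH[1] X ≠ ⊤)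
    {a b c : E} (ha : a ∈ X) (hb : b ∈ X) (hc : c ∈ X) :
    ∃ q, dist a q + dist q b + dist c q ≤ (μH[1] X).toReal := by
  obtain ⟨γ, s0, s1, h⟩ := exists_arc hXc hX ha hb hfin
  obtain ⟨δ, t0, t1, g⟩ := exists_arc hXc hX hc ha hfin
  set K : Set E := γ '' Icc s0 s1 with hK
  have hKc : IsCompact K := isCompact_Icc.image_of_continuousOn h.cont
  set Z : Set ℝ := Icc t0 t1 ∩ δ ⁻¹' K with hZ
  have hZc : IsCompact Z := by
    have : IsClosed Z := g.cont.preimage_isClosed_of_isClosed isClosed_Icc hKc.isClosed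
    exact isCompact_Icc.of_isClosed_subset this inter_subset_left
  have hZne : Z.Nonempty := by
    refine ⟨t1, ⟨g.le, le_rfl⟩, ?_⟩
    show δ t1 ∈ K
    rw [g.right, ← h.left]
    exact ⟨s0, ⟨le_rfl, h.le⟩, rfl⟩
  obtain ⟨τ, hτZ, hτmin⟩ := hZc.exists_isLeast hZne
  obtain ⟨⟨h0τ, hτ1⟩, hτK⟩ := hτZ
  obtain ⟨σ, ⟨hσ0, hσ1⟩, hσ⟩ := (show δ τ ∈ K from hτK)
  have n01 : μH[1] (γ '' Icc s0 σ ∩ γ '' Icc σ s1) = 0 := by
    refine measure_mono_null ?_ (noAtom (δ τ))
    rintro z ⟨⟨t, ht, rfl⟩, ⟨u, hu, hut⟩⟩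
    have : u = t := h.inj ⟨hσ0.trans hu.1, hu.2⟩ ⟨ht.1, ht.2.trans hσ1⟩ hut
    have h2 : t = σ := le_antisymm ht.2 (this ▸ hu.1)
    rw [h2, hσ]; rfl
  have nK : ∀ I : Set E, I ⊆ K → μH[1] (I ∩ δ '' Icc t0 τ) = 0 := by
    intro I hI
    refine measure_mono_null ?_ (noAtom (δ τ))
    rintro z ⟨hz, ⟨t, ht, rfl⟩⟩
    have h1 : τ ≤ t := hτmin ⟨⟨ht.1, ht.2.trans hτ1⟩, hI hz⟩
    have h2 : t = τ := le_antisymm ht.2 h1
    rw [h2]; rfl
  have n02 := nK (γ '' Icc s0 σ) (image_mono (Icc_subset_Icc le_rfl hσ1))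
  have n12 := nK (γ '' Icc σ s1) (image_mono (Icc_subset_Icc hσ0 le_rfl))
  let γ' : Fin 3 → ℝ → E := ![γ, γ, δ]
  let a' : Fin 3 → ℝ := ![s0, σ, t0]
  let b' : Fin 3 → ℝ := ![σ, s1, τ]
  have harc : ∀ i, IsArc X (γ' i (a' i)) (γ' i (b' i)) (γ' i) (a' i) (b' i) := by
    intro i
    fin_cases i
    · exact h.sub le_rfl hσ0 hσ1
    · exact h.sub hσ0 hσ1 le_rfl
    · exact g.sub le_rfl h0τ hτ1
  have hnull : ∀ i j, i ≠ j →
      μH[1] (γ' i '' Icc (a' i) (b' i) ∩ γ' j '' Icc (a' j) (b' j)) = 0 := by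
    intro i j hij
    fin_cases i <;> fin_cases j
    · exact absurd rfl hij
    · exact n01
    · exact n02
    · rw [inter_comm]; exact n01
    · exact absurd rfl hij
    · exact n12
    · rw [inter_comm]; exact n02
    · rw [inter_comm]; exact n12
    · exact absurd rfl hij
  let S : ArcSys X (Fin 3) := ⟨γ', a', b', harc, hnull⟩
  have hsum := ArcSys.sum_le hfin S
  rw [Fin.sum_univ_three] at hsum
  refine ⟨γ σ, ?_⟩
  have e0 : S.pos (0, false) = a := h.left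
  have e0' : S.pos (0, true) = γ σ := rfl
  have e1 : S.pos (1, false) = γ σ := rfl
  have e1' : S.pos (1, true) = b := h.right
  have e2 : S.pos (2, false) = c := g.left
  have e2' : S.pos (2, true) = γ σ := hσ.symm
  rw [e0, e0', e1, e1', e2, e2'] at hsum
  exact hsum

/-- From any point of `T` one can follow `T` until one reaches the closed set `C` for the first
time. -/
lemma exists_reach {T : Set E} (hTc : IsCompact T) (hT : IsPreconnected T)
    (hfin : μH[1] T ≠ ⊤) {x y : E} (hx : x ∈ T) (hy : y ∈ T) {C : Set E} (hC : IsClosed C)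
    (hyC : y ∈ C) : ∃ Γ : Set E, ∃ e, e ∈ Γ ∧ IsCompact Γ ∧ IsPreconnected Γ ∧ x ∈ Γ ∧ Γ ⊆ T ∧
      e ∈ C ∧ ∀ p ∈ Γ, p ≠ e → p ∉ C := by
  obtain ⟨δ, t0, t1, g⟩ := exists_arc hTc hT hx hy hfin
  set Z : Set ℝ := Icc t0 t1 ∩ δ ⁻¹' C with hZ
  have hZc : IsCompact Z := by
    have : IsClosed Z := g.cont.preimage_isClosed_of_isClosed isClosed_Icc hC
    exact isCompact_Icc.of_isClosed_subset this inter_subset_left
  have hZne : Z.Nonempty := by
    refine ⟨t1, ⟨g.le, le_rfl⟩, ?_⟩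
    show δ t1 ∈ C
    rw [g.right]; exact hyC
  obtain ⟨τ, hτZ, hτmin⟩ := hZc.exists_isLeast hZne
  obtain ⟨⟨h0τ, hτ1⟩, hτC⟩ := hτZ
  have g' := g.sub le_rfl h0τ hτ1
  refine ⟨δ '' Icc t0 τ, δ τ, ⟨τ, ⟨h0τ, le_rfl⟩, rfl⟩, isCompact_Icc.image_of_continuousOn g'.cont,
    isPreconnected_Icc.image _ g'.cont, ⟨t0, ⟨le_rfl, h0τ⟩, g.left⟩, ?_, hτC, ?_⟩
  · rintro _ ⟨t, ht, rfl⟩
    exact g'.maps t ht
  · rintro _ ⟨t, ht, rfl⟩ hne hmem
    have h1 : τ ≤ t := hτmin ⟨⟨ht.1, ht.2.trans hτ1⟩, hmem⟩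
    exact hne (by rw [le_antisymm ht.2 h1])

end metric

section inner

variable {E : Type*} [NormedAddCommGroup E] [InnerProductSpace ℝ E] [MeasurableSpace E]
  [BorelSpace E]

omit [MeasurableSpace E] [BorelSpace E] in
lemma inner_half {wa wb wc : E} (ha : ‖wa‖ = 1) (hb : ‖wb‖ = 1) (hc : ‖wc‖ = 1)
    (hsum : wa + wb + wc = 0) : ⟪wa, wb⟫_ℝ = -(1/2) := by
  have h1 : wc = -(wa + wb) := by
    rw [← add_eq_zero_iff_eq_neg', hsum]
  have h2 := norm_add_sq_real wa wb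
  have h3 : ‖wa + wb‖ = 1 := by rw [← norm_neg, ← h1]; exact hc
  rw [h3, ha, hb] at h2
  linarith

omit [MeasurableSpace E] [BorelSpace E] in
lemma inner_le_dist {w : E} (hw : ‖w‖ = 1) (x y : E) : ⟪x - y, w⟫_ℝ ≤ dist x y := by
  have := real_inner_le_norm (x - y) w
  rw [hw, mul_one, ← dist_eq_norm] at this
  exact this

/-- Two terminals `b`, `c` of a small tripod have to be joined to `K`; this costs at least as
much as the tripod. -/
theorem local_lower {T K : Set E} (hTc : IsCompact T) (hT : IsPreconnected T)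
    (hfin : μH[1] T ≠ ⊤) (hK : IsClosed K) (hKT : K ⊆ T) (hKne : K.Nonempty)
    {P wa wb wc : E} {s : ℝ} (hs : 0 < s) (ha1 : ‖wa‖ = 1) (hb1 : ‖wb‖ = 1) (hc1 : ‖wc‖ = 1)
    (hsum : wa + wb + wc = 0) (hKs : ∀ x ∈ K, dist x P ≤ 4 * s → s ≤ ⟪x - P, wa⟫_ℝ)
    (hb : P + s • wb ∈ T) (hc : P + s • wc ∈ T) :
    ENNReal.ofReal (3 * s) ≤ μH[1] ((T ∩ Metric.closedBall P (4 * s)) \ K) := by
  set D := Metric.closedBall P (4 * s) with hD
  set C : Set E := K ∪ {x | 4 * s ≤ dist x P} with hCdef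
  have hC : IsClosed C :=
    hK.union (isClosed_le continuous_const (continuous_id.dist continuous_const))
  obtain ⟨z, hz⟩ := hKne
  have hzC : z ∈ C := Or.inl hz
  obtain ⟨Γb, eb, heb, hbc, hbp, hbx, hbT, hebC, hbn⟩ :=
    exists_reach hTc hT hfin hb (hKT hz) hC hzC
  obtain ⟨Γc, ec, hec, hcc, hcp, hcx, hcT, hecC, hcn⟩ :=
    exists_reach hTc hT hfin hc (hKT hz) hC hzC
  have hsub : ∀ (Γ : Set E) (e : E), Γ ⊆ T → (∀ p ∈ Γ, p ≠ e → p ∉ C) →
      Γ \ {e} ⊆ (T ∩ D) \ K := by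
    rintro Γ e h1 h2 p ⟨hp, hpe⟩
    have h3 := h2 p hp hpe
    refine ⟨⟨h1 hp, ?_⟩, fun h => h3 (Or.inl h)⟩
    rw [hD, Metric.mem_closedBall]
    by_contra h
    push Not at h
    exact h3 (Or.inr h.le)
  have hmeas : ∀ (Γ : Set E) (e e' : E), μH[1] Γ ≤ μH[1] (Γ \ {e, e'}) := by
    intro Γ e e'
    have h1 : Γ ⊆ (Γ \ {e, e'}) ∪ ({e} ∪ {e'}) := by
      intro p hp
      by_cases h : p = e ∨ p = e'
      · rcases h with rfl | rfl
        · exact Or.inr (Or.inl rfl)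
        · exact Or.inr (Or.inr rfl)
      · refine Or.inl ⟨hp, ?_⟩
        simpa [mem_insert_iff] using h
    calc μH[1] Γ ≤ μH[1] ((Γ \ {e, e'}) ∪ ({e} ∪ {e'})) := measure_mono h1
      _ ≤ μH[1] (Γ \ {e, e'}) + μH[1] ({e} ∪ {e'}) := measure_union_le _ _
      _ ≤ μH[1] (Γ \ {e, e'}) + (μH[1] {e} + μH[1] {e'}) := by
          gcongr
          exact measure_union_le _ _
      _ = μH[1] (Γ \ {e, e'}) := by rw [noAtom, noAtom]; simp
  have hfar : ∀ (Γ : Set E) (e w : E), ‖w‖ = 1 → Γ ⊆ T → (∀ p ∈ Γ, p ≠ e → p ∉ C) →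
      IsPreconnected Γ → P + s • w ∈ Γ → e ∈ Γ → 4 * s ≤ dist e P →
      ENNReal.ofReal (3 * s) ≤ μH[1] ((T ∩ D) \ K) := by
    intro Γ e w hw h1 h2 h3 h4 h5 h6
    have h7 : 3 * s ≤ dist (P + s • w) e := by
      have h8 : dist (P + s • w) P = s := by
        rw [dist_eq_norm, add_sub_cancel_left, norm_smul, hw, mul_one, Real.norm_eq_abs,
          abs_of_pos hs]
      have h9 := dist_triangle e (P + s • w) P
      rw [dist_comm e (P + s • w)] at h9
      linarith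
    calc ENNReal.ofReal (3 * s) ≤ ENNReal.ofReal (dist (P + s • w) e) :=
          ENNReal.ofReal_le_ofReal h7
      _ ≤ μH[1] Γ := H_conn h3 h4 h5
      _ ≤ μH[1] (Γ \ {e, e}) := hmeas Γ e e
      _ ≤ μH[1] ((T ∩ D) \ K) := by
          apply measure_mono
          rw [pair_eq_singleton]
          exact hsub Γ e h1 h2
  by_cases hbfar : 4 * s ≤ dist eb P
  · exact hfar Γb eb wb hb1 hbT hbn hbp hbx heb hbfar
  by_cases hcfar : 4 * s ≤ dist ec P
  · exact hfar Γc ec wc hc1 hcT hcn hcp hcx hec hcfar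
  have hebK : eb ∈ K := by
    rcases hebC with h | h
    · exact h
    · exact absurd h hbfar
  have hecK : ec ∈ K := by
    rcases hecC with h | h
    · exact h
    · exact absurd h hcfar
  have hab := inner_half ha1 hb1 hc1 hsum
  have hac : ⟪wa, wc⟫_ℝ = -(1/2) := by
    refine inner_half ha1 hc1 hb1 ?_
    rw [← hsum]; abel
  have hU : μH[1] (Γb ∪ Γc) ≤ μH[1] ((T ∩ D) \ K) := by
    refine (hmeas _ eb ec).trans (measure_mono ?_)
    rintro p ⟨hp, hpe⟩
    rw [mem_insert_iff, mem_singleton_iff, not_or] at hpe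
    rcases hp with hp | hp
    · exact hsub Γb eb hbT hbn ⟨hp, hpe.1⟩
    · exact hsub Γc ec hcT hcn ⟨hp, hpe.2⟩
  refine le_trans ?_ hU
  have hUfin : μH[1] (Γb ∪ Γc) ≠ ⊤ :=
    ne_top_of_le_ne_top hfin (measure_mono (union_subset hbT hcT))
  by_cases hdis : Disjoint Γb Γc
  · rw [measure_union hdis hcc.measurableSet]
    have hone : ∀ (Γ : Set E) (e w : E), ⟪wa, w⟫_ℝ = -(1/2) → IsPreconnected Γ →
        P + s • w ∈ Γ → e ∈ Γ → e ∈ K → dist e P ≤ 4 * s →
        ENNReal.ofReal (3 / 2 * s) ≤ μH[1] Γ := by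
      intro Γ e w hw h1 h2 h3 h4 h4'
      refine le_trans (ENNReal.ofReal_le_ofReal ?_) (H_conn h1 h3 h2)
      have h5 := inner_le_dist ha1 e (P + s • w)
      have h6 := hKs e h4 h4'
      have h7 : ⟪e - (P + s • w), wa⟫_ℝ = ⟪e - P, wa⟫_ℝ - s * ⟪wa, w⟫_ℝ := by
        rw [← sub_sub, inner_sub_left, real_inner_smul_left, real_inner_comm wa w]
      rw [h7, hw] at h5
      linarith
    have h1 := hone Γb eb wb hab hbp hbx heb hebK (not_le.mp hbfar).le
    have h2 := hone Γc ec wc hac hcp hcx hec hecK (not_le.mp hcfar).le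
    calc ENNReal.ofReal (3 * s) = ENNReal.ofReal (3 / 2 * s) + ENNReal.ofReal (3 / 2 * s) := by
          rw [← ENNReal.ofReal_add (by positivity) (by positivity)]
          congr 1; ring
      _ ≤ _ := add_le_add h1 h2
  · have hne : (Γb ∩ Γc).Nonempty := not_disjoint_iff_nonempty_inter.mp hdis
    have hconn : IsPreconnected (Γb ∪ Γc) := by
      obtain ⟨x, hx1, hx2⟩ := hne
      exact IsPreconnected.union x hx1 hx2 hbp hcp
    obtain ⟨q, hq⟩ := three_point (hbc.union hcc) hconn hUfin (a := eb) (b := P + s • wb)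
      (c := P + s • wc) (Or.inl heb) (Or.inl hbx) (Or.inr hcx)
    have h3 : 3 * s ≤ (μH[1] (Γb ∪ Γc)).toReal := by
      refine le_trans ?_ hq
      have g1 := inner_le_dist ha1 eb q
      have g2 := inner_le_dist hb1 (P + s • wb) q
      have g3 := inner_le_dist hc1 (P + s • wc) q
      have g4 := hKs eb hebK (not_le.mp hbfar).le
      have k2 : ⟪(P + s • wb) - q, wb⟫_ℝ = ⟪P - q, wb⟫_ℝ + s := by
        have : (P + s • wb) - q = (P - q) + s • wb := by abel
        rw [this, inner_add_left, real_inner_smul_left, real_inner_self_eq_norm_sq, hb1]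
        ring
      have k3 : ⟪(P + s • wc) - q, wc⟫_ℝ = ⟪P - q, wc⟫_ℝ + s := by
        have : (P + s • wc) - q = (P - q) + s • wc := by abel
        rw [this, inner_add_left, real_inner_smul_left, real_inner_self_eq_norm_sq, hc1]
        ring
      have k1 : ⟪eb - q, wa⟫_ℝ = ⟪eb - P, wa⟫_ℝ + ⟪P - q, wa⟫_ℝ := by
        have : eb - q = (eb - P) + (P - q) := by abel
        rw [this, inner_add_left]
      have k0 : ⟪P - q, wa⟫_ℝ + ⟪P - q, wb⟫_ℝ + ⟪P - q, wc⟫_ℝ = 0 := by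
        rw [← inner_add_right, ← inner_add_right, hsum, inner_zero_right]
      rw [dist_comm q (P + s • wb)]
      rw [k1] at g1
      rw [k2] at g2
      rw [k3] at g3
      linarith
    calc ENNReal.ofReal (3 * s) ≤ ENNReal.ofReal (μH[1] (Γb ∪ Γc)).toReal :=
          ENNReal.ofReal_le_ofReal h3
      _ = _ := ENNReal.ofReal_toReal hUfin

/-- The lower bound for countably many clusters at once. -/
theorem global_lower {ι : Type*} [Countable ι] {T K : Set E} (hTc : IsCompact T)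
    (hT : IsPreconnected T) (hfin : μH[1] T ≠ ⊤) (hK : IsClosed K) (hKT : K ⊆ T)
    (hKne : K.Nonempty) {P wb wc : ι → E} {wa : E} {s : ι → ℝ} (hs : ∀ i, 0 < s i)
    (ha1 : ‖wa‖ = 1) (hb1 : ∀ i, ‖wb i‖ = 1) (hc1 : ∀ i, ‖wc i‖ = 1)
    (hsum : ∀ i, wa + wb i + wc i = 0)
    (hKs : ∀ i, ∀ x ∈ K, dist x (P i) ≤ 4 * s i → s i ≤ ⟪x - P i, wa⟫_ℝ)
    (hb : ∀ i, P i + s i • wb i ∈ T) (hc : ∀ i, P i + s i • wc i ∈ T)
    (hP : ∀ i j, i ≠ j → 4 * s i + 4 * s j < dist (P i) (P j)) :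
    μH[1] K + ∑' i, ENNReal.ofReal (3 * s i) ≤ μH[1] T := by
  have h1 : ∀ i, ENNReal.ofReal (3 * s i) ≤
      μH[1] ((T ∩ Metric.closedBall (P i) (4 * s i)) \ K) :=
    fun i => local_lower hTc hT hfin hK hKT hKne (hs i) ha1 (hb1 i) (hc1 i) (hsum i) (hKs i)
      (hb i) (hc i)
  have hm : ∀ i, MeasurableSet ((T ∩ Metric.closedBall (P i) (4 * s i)) \ K) := fun i =>
    (hTc.measurableSet.inter Metric.isClosed_closedBall.measurableSet).diff hK.measurableSet
  have hd : Pairwise (Function.onFun Disjoint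
      fun i => (T ∩ Metric.closedBall (P i) (4 * s i)) \ K) := by
    intro i j hij
    refine Disjoint.mono ?_ ?_ (Metric.closedBall_disjoint_closedBall
      (x := P i) (y := P j) (δ := 4 * s i) (ε := 4 * s j) (hP i j hij))
    · exact fun x hx => hx.1.2
    · exact fun x hx => hx.1.2
  have h2 : ∑' i, ENNReal.ofReal (3 * s i) ≤
      μH[1] (⋃ i, (T ∩ Metric.closedBall (P i) (4 * s i)) \ K) := by
    rw [measure_iUnion hd hm]
    exact ENNReal.tsum_le_tsum h1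
  have hdis : Disjoint K (⋃ i, (T ∩ Metric.closedBall (P i) (4 * s i)) \ K) := by
    rw [disjoint_iUnion_right]
    exact fun i => disjoint_sdiff_right
  calc μH[1] K + ∑' i, ENNReal.ofReal (3 * s i)
      ≤ μH[1] K + μH[1] (⋃ i, (T ∩ Metric.closedBall (P i) (4 * s i)) \ K) := by gcongr
    _ = μH[1] (K ∪ ⋃ i, (T ∩ Metric.closedBall (P i) (4 * s i)) \ K) :=
        (measure_union hdis (MeasurableSet.iUnion hm)).symm
    _ ≤ μH[1] T := by
        apply measure_mono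
        refine union_subset hKT (iUnion_subset fun i => ?_)
        exact fun x hx => hx.1.1

end inner

end Pool.Agent.Helper877_Ball
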