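import Pool.Agent.Helper877_Ball.Cfg

set_option autoImplicit false

open scoped MeasureTheory ENNReal Topology InnerProductSpace
open MeasureTheory Set Filter
open Pool.Agent.R154.Steiner

namespace Pool.Agent.Helper877_Ball

variable {E : Type*} [NormedAddCommGroup E] [InnerProductSpace ℝ E]

lemma PP_low_mem (e : Fin 3 → E) (i : ℕ) (β : ℝ) (hβ : β = 1 ∨ β = -1) :
    PP e (th i) + (th i / 64) • ww e β (th i) ∈ AA e := by
  rcases hβ with rfl | rfl
  · exact Or.inr (Or.inl ⟨th i, Or.inr ⟨i, rfl⟩, rfl⟩)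
  · exact Or.inr (Or.inr ⟨th i, Or.inr ⟨i, rfl⟩, rfl⟩)

lemma beta_zero_mem (e : Fin 3 → E) : beta e 0 ∈ KK e :=
  Or.inl ⟨0, ⟨le_rfl, zero_le_one⟩, rfl⟩

/-- The spike at `θ` together with the backbone is connected. -/
lemma conn_spike (e : Fin 3 → E) {θ : ℝ} (hθ : θ ∈ Th) :
    IsPreconnected ((beta e '' Icc 0 1) ∪ (fun t => spike e θ t) '' Icc 0 1) := by
  have h1 : IsPreconnected (beta e '' Icc 0 1) :=
    isPreconnected_Icc.image _ (beta_continuous e).continuousOn
  have h2 : IsPreconnected ((fun t => spike e θ t) '' Icc 0 1) := by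
    refine isPreconnected_Icc.image _ ?_
    exact ((spike_continuous e).comp (continuous_const.prodMk continuous_id)).continuousOn
  refine IsPreconnected.union (beta e θ) ⟨θ, ⟨Th_nonneg hθ, Th_le hθ⟩, rfl⟩ ?_ h1 h2
  exact ⟨1, ⟨zero_le_one, le_rfl⟩, spike_one e θ⟩

lemma KK_sub (e : Fin 3 → E) {θ : ℝ} (hθ : θ ∈ Th) :
    (beta e '' Icc 0 1) ∪ (fun t => spike e θ t) '' Icc 0 1 ⊆ KK e := by
  refine union_subset subset_union_left ?_
  rintro _ ⟨t, ht, rfl⟩
  exact Or.inr ⟨(θ, t), ⟨hθ, ht⟩, rfl⟩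

lemma leg_conn (e : Fin 3 → E) (w : ℝ → E) (θ : ℝ) :
    IsPreconnected ((fun t : ℝ => PP e θ + (t * (θ / 64)) • w θ) '' Icc 0 1) :=
  isPreconnected_Icc.image _ (by fun_prop)

lemma leg_sub (e : Fin 3 → E) (w : ℝ → E) {θ : ℝ} (hθ : θ ∈ Th) :
    (fun t : ℝ => PP e θ + (t * (θ / 64)) • w θ) '' Icc 0 1 ⊆ Leg e w := by
  rintro _ ⟨t, ht, rfl⟩
  exact ⟨(θ, t), ⟨hθ, ht⟩, rfl⟩

lemma SS_connected (e : Fin 3 → E) : IsConnected (SS e) := by
  have m0 : (0:ℝ) ∈ Icc (0:ℝ) 1 := ⟨le_rfl, zero_le_one⟩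
  have m1 : (1:ℝ) ∈ Icc (0:ℝ) 1 := ⟨zero_le_one, le_rfl⟩
  refine ⟨⟨beta e 0, Or.inl (beta_zero_mem e)⟩, ?_⟩
  have hcore : ∀ θ ∈ Th, IsPreconnected (((beta e '' Icc 0 1) ∪ (fun t => spike e θ t) '' Icc 0 1)
      ∪ (fun t : ℝ => PP e θ + (t * (θ / 64)) • ff e) '' Icc 0 1) := by
    intro θ hθ
    refine IsPreconnected.union (spike e θ 0) (Or.inr ⟨0, m0, rfl⟩) ?_ (conn_spike e hθ)
      (leg_conn e (fun _ => ff e) θ)
    exact ⟨1, m1, by rw [spike_zero]; simp⟩
  have hcoreS : ∀ θ ∈ Th, ((beta e '' Icc 0 1) ∪ (fun t => spike e θ t) '' Icc 0 1)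
      ∪ (fun t : ℝ => PP e θ + (t * (θ / 64)) • ff e) '' Icc 0 1 ⊆ SS e := by
    intro θ hθ
    refine union_subset ((KK_sub e hθ).trans subset_union_left) ?_
    exact (leg_sub e (fun _ => ff e) hθ).trans
      (subset_union_left.trans subset_union_right)
  have hleg : ∀ (w : ℝ → E), Leg e w ⊆ SS e → ∀ x ∈ Leg e w,
      ∃ t ⊆ SS e, beta e 0 ∈ t ∧ x ∈ t ∧ IsPreconnected t := by
    rintro w hw _ ⟨⟨θ, t⟩, ⟨hθ, ht⟩, rfl⟩
    refine ⟨(((beta e '' Icc 0 1) ∪ (fun t => spike e θ t) '' Icc 0 1)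
      ∪ (fun t : ℝ => PP e θ + (t * (θ / 64)) • ff e) '' Icc 0 1) ∪
      (fun t : ℝ => PP e θ + (t * (θ / 64)) • w θ) '' Icc 0 1, ?_, ?_, ?_, ?_⟩
    · exact union_subset (hcoreS θ hθ) ((leg_sub e w hθ).trans hw)
    · exact Or.inl (Or.inl (Or.inl ⟨0, m0, rfl⟩))
    · exact Or.inr ⟨t, ht, rfl⟩
    · refine IsPreconnected.union (PP e θ) (Or.inr ⟨0, m0, by simp⟩) ⟨0, m0, by simp⟩
        (hcore θ hθ) (leg_conn e w θ)
  refine isPreconnected_of_forall (beta e 0) ?_
  rintro x (hx | hx | hx | hx)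
  · rcases hx with ⟨θ, hθ, rfl⟩ | ⟨⟨θ, t⟩, ⟨hθ, ht⟩, rfl⟩
    · exact ⟨beta e '' Icc 0 1, subset_union_left.trans subset_union_left, ⟨0, m0, rfl⟩,
        ⟨θ, hθ, rfl⟩, isPreconnected_Icc.image _ (beta_continuous e).continuousOn⟩
    · exact ⟨_, (KK_sub e hθ).trans subset_union_left, Or.inl ⟨0, m0, rfl⟩,
        Or.inr ⟨t, ht, rfl⟩, conn_spike e hθ⟩
  · exact hleg _ (subset_union_left.trans subset_union_right) x hx
  · exact hleg _ (subset_union_left.trans (subset_union_right.trans subset_union_right)) x hx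
  · exact hleg _ (subset_union_right.trans (subset_union_right.trans subset_union_right)) x hx

section measure

variable [MeasurableSpace E] [BorelSpace E]

lemma Leg_measure (e : Fin 3 → E) {w : ℝ → E} (hw : ∀ θ, ‖w θ‖ = 1) :
    μH[1] (Leg e w) ≤ ∑' i, ENNReal.ofReal (th i / 64) := by
  have h1 : Leg e w ⊆ {PP e 0} ∪ ⋃ i, segment ℝ (PP e (th i)) (PP e (th i) + (th i / 64) • w (th i)) := by
    rintro _ ⟨⟨θ, t⟩, ⟨hθ, ht⟩, rfl⟩
    rcases hθ with hθ | ⟨i, hi⟩
    · left
      simp only at hθ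
      subst hθ
      simp
    · right
      simp only at hi
      subst hi
      rw [mem_iUnion]
      refine ⟨i, ?_⟩
      rw [segment_eq_image']
      refine ⟨t, ht, ?_⟩
      simp only [add_sub_cancel_left, smul_smul]
  calc μH[1] (Leg e w) ≤ μH[1] ({PP e 0} ∪
        ⋃ i, segment ℝ (PP e (th i)) (PP e (th i) + (th i / 64) • w (th i))) := measure_mono h1
    _ ≤ μH[1] {PP e 0} + μH[1]
        (⋃ i, segment ℝ (PP e (th i)) (PP e (th i) + (th i / 64) • w (th i))) :=
        measure_union_le _ _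
    _ ≤ 0 + ∑' i, μH[1] (segment ℝ (PP e (th i)) (PP e (th i) + (th i / 64) • w (th i))) := by
        rw [noAtom]
        gcongr
        exact measure_iUnion_le _
    _ = ∑' i, ENNReal.ofReal (th i / 64) := by
        rw [zero_add]
        congr 1
        ext i
        rw [hausdorffMeasure_segment, edist_dist, dist_eq_norm, sub_add_cancel_left, norm_neg,
          norm_smul, hw, mul_one, Real.norm_of_nonneg]
        have := th_pos i
        positivity

lemma sum_th : ∑' i, ENNReal.ofReal (th i) ≠ ⊤ := by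
  have hs : Summable th := summable_geometric_two
  exact hs.tsum_ofReal_ne_top

lemma KK_measure {e : Fin 3 → E} (he : Orthonormal ℝ e) : μH[1] (KK e) ≠ ⊤ := by
  have h1 : KK e ⊆ (beta e '' Icc 0 1) ∪ ⋃ i, segment ℝ (spike e (th i) 0) (spike e (th i) 1) := by
    rintro x (hx | ⟨⟨θ, t⟩, ⟨hθ, ht⟩, rfl⟩)
    · exact Or.inl hx
    · rcases hθ with hθ | ⟨i, hi⟩
      · left
        simp only at hθ
        subst hθ
        exact ⟨0, ⟨le_rfl, zero_le_one⟩, (spike_eq_zero e t).symm⟩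
      · right
        simp only at hi
        subst hi
        rw [mem_iUnion]
        refine ⟨i, 1 - t, t, by linarith [ht.2], ht.1, by ring, ?_⟩
        exact (spike_affine e (th i) t).symm
  have h2 : μH[1] (beta e '' Icc 0 1) ≠ ⊤ := by
    have h := (beta_lip he).hausdorffMeasure_image_le (d := 1) zero_le_one
    rw [hausdorffMeasure_real, Real.volume_Icc, ENNReal.rpow_one] at h
    refine ne_top_of_le_ne_top ?_ h
    exact ENNReal.mul_ne_top ENNReal.coe_ne_top ENNReal.ofReal_ne_top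
  have h3 : ∀ i, μH[1] (segment ℝ (spike e (th i) 0) (spike e (th i) 1)) ≤
      3 * ENNReal.ofReal (th i) := by
    intro i
    have hp := th_pos i
    have hl := th_le i
    rw [hausdorffMeasure_segment, edist_dist]
    have h4 : dist (spike e (th i) 0) (spike e (th i) 1) ≤ 3 * th i := by
      rw [dist_comm, dist_eq_norm]
      have h5 : spike e (th i) 1 - spike e (th i) 0 =
          vec e ((1 + th i - hh (th i)) * Real.cos (th i))
            ((1 + th i - hh (th i)) * Real.sin (th i)) (63 / 64 * th i) := by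
        unfold spike
        rw [vec_sub]
        congr 1 <;> ring
      rw [h5, norm_cyl he]
      apply Real.sqrt_le_iff.mpr
      have h6 := hh_ge hp.le hl
      have h7 := hh_le (th i)
      refine ⟨by positivity, ?_⟩
      have h8 : 0 ≤ 1 + th i - hh (th i) := by linarith
      have h9 : 1 + th i - hh (th i) ≤ 2 * th i := by linarith
      nlinarith
    calc ENNReal.ofReal (dist (spike e (th i) 0) (spike e (th i) 1))
        ≤ ENNReal.ofReal (3 * th i) := ENNReal.ofReal_le_ofReal h4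
      _ = 3 * ENNReal.ofReal (th i) := by
        rw [ENNReal.ofReal_mul (by norm_num)]
        norm_num
  refine ne_top_of_le_ne_top ?_ (measure_mono h1)
  refine ne_top_of_le_ne_top ?_ (measure_union_le _ _)
  refine ENNReal.add_ne_top.mpr ⟨h2, ?_⟩
  refine ne_top_of_le_ne_top ?_ (measure_iUnion_le _)
  refine ne_top_of_le_ne_top ?_ (ENNReal.tsum_le_tsum h3)
  rw [ENNReal.tsum_mul_left]
  exact ENNReal.mul_ne_top (by norm_num) sum_th

lemma SS_measure {e : Fin 3 → E} (he : Orthonormal ℝ e) :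
    μH[1] (SS e) ≤ μH[1] (KK e) + ∑' i, ENNReal.ofReal (3 * (th i / 64)) := by
  have hff := Leg_measure e (w := fun _ => ff e) (fun _ => norm_ff he)
  have h1 := Leg_measure e (w := ww e 1) (fun θ => norm_ww he (by norm_num) θ)
  have h2 := Leg_measure e (w := ww e (-1)) (fun θ => norm_ww he (by norm_num) θ)
  have h3 : ∑' i, ENNReal.ofReal (3 * (th i / 64)) = ∑' i, ENNReal.ofReal (th i / 64) +
      (∑' i, ENNReal.ofReal (th i / 64) + ∑' i, ENNReal.ofReal (th i / 64)) := by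
    rw [← ENNReal.tsum_add, ← ENNReal.tsum_add]
    congr 1
    ext i
    have := th_pos i
    rw [← ENNReal.ofReal_add (by positivity) (by positivity),
      ← ENNReal.ofReal_add (by positivity) (by positivity)]
    congr 1
    ring
  rw [h3]
  refine (measure_union_le _ _).trans (add_le_add le_rfl ?_)
  refine (measure_union_le _ _).trans (add_le_add hff ?_)
  exact (measure_union_le _ _).trans (add_le_add h1 h2)

lemma sum_fin : ∑' i, ENNReal.ofReal (3 * (th i / 64)) ≠ ⊤ := by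
  have hs : Summable (fun i => 3 * (th i / 64)) := by
    have : Summable th := summable_geometric_two
    exact (this.div_const 64).mul_left 3
  exact hs.tsum_ofReal_ne_top

theorem SS_steiner [FiniteDimensional ℝ E] {e : Fin 3 → E} (he : Orthonormal ℝ e) :
    IsSteinerTree (AA e) (SS e) := by
  refine ⟨(SS_compact e).isClosed, SS_connected e, AA_sub e, ?_, ?_⟩
  · refine lt_of_le_of_lt (SS_measure he) ?_
    rw [ENNReal.add_lt_top]
    exact ⟨(KK_measure he).lt_top, sum_fin.lt_top⟩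
  · intro T hTc hT hAT
    by_cases hfin : μH[1] T = ⊤
    · rw [hfin]; exact le_top
    refine (SS_measure he).trans ?_
    have hcomp := compact_of_finite hTc hT.isPreconnected hfin
    have hKT : KK e ⊆ T := subset_union_left.trans hAT
    exact global_lower hcomp hT.isPreconnected hfin (KK_compact e).isClosed hKT
      ⟨_, beta_zero_mem e⟩ (P := fun i => PP e (th i)) (wb := fun i => ww e 1 (th i))
      (wc := fun i => ww e (-1) (th i)) (wa := ff e) (s := fun i => th i / 64)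
      (fun i => by have := th_pos i; positivity) (norm_ff he)
      (fun i => norm_ww he (by norm_num) _) (fun i => norm_ww he (by norm_num) _)
      (fun i => sum_ww e _) (fun i x hx hd => KK_near he i hx hd)
      (fun i => hAT (PP_low_mem e i 1 (Or.inl rfl)))
      (fun i => hAT (PP_low_mem e i (-1) (Or.inr rfl)))
      (fun i j hij => PP_dist he i j hij)

end measure

/-- The three directions at the centre `i`. -/
noncomputable def FF (e : Fin 3 → E) (i : ℕ) : Finset E := by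
  classical
  exact {ff e, ww e 1 (th i), ww e (-1) (th i)}

lemma mem_FF (e : Fin 3 → E) (i : ℕ) (u : E) :
    u ∈ FF e i ↔ u = ff e ∨ u = ww e 1 (th i) ∨ u = ww e (-1) (th i) := by
  unfold FF
  simp

lemma FF_norm {e : Fin 3 → E} (he : Orthonormal ℝ e) (i : ℕ) {u : E} (hu : u ∈ FF e i) :
    ‖u‖ = 1 := by
  rw [mem_FF] at hu
  rcases hu with rfl | rfl | rfl
  · exact norm_ff he
  · exact norm_ww he (by norm_num) _
  · exact norm_ww he (by norm_num) _

lemma FF_card {e : Fin 3 → E} (he : Orthonormal ℝ e) (i : ℕ) : 3 ≤ (FF e i).card := by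
  classical
  have key : ∀ a b c : E, ‖a‖ = 1 → ‖b‖ = 1 → ‖c‖ = 1 → a + b + c = 0 → a ≠ b := by
    intro a b c ha hb hc h heq
    have h1 := inner_half ha hb hc h
    rw [← heq, real_inner_self_eq_norm_sq, ha] at h1
    norm_num at h1
  have n0 := norm_ff he
  have n1 := norm_ww he (β := 1) (by norm_num) (th i)
  have n2 := norm_ww he (β := -1) (by norm_num) (th i)
  have hs := sum_ww e (th i)
  have h01 : ff e ≠ ww e 1 (th i) := key _ _ _ n0 n1 n2 hs
  have h02 : ff e ≠ ww e (-1) (th i) := key _ _ _ n0 n2 n1 (by rw [← hs]; abel)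
  have h12 : ww e 1 (th i) ≠ ww e (-1) (th i) := key _ _ _ n1 n2 n0 (by rw [← hs]; abel)
  unfold FF
  rw [Finset.card_eq_three.mpr ⟨_, _, _, h01, h02, h12, rfl⟩]

lemma Leg_near {e : Fin 3 → E} (he : Orthonormal ℝ e) (i : ℕ) {w : ℝ → E}
    (hw : ∀ θ, ‖w θ‖ = 1) {x : E} (hx : x ∈ Leg e w)
    (hd : x ∈ Metric.ball (PP e (th i)) (1 - hh (th i))) :
    ∃ t : ℝ, 0 ≤ t ∧ x = PP e (th i) + t • w (th i) := by
  obtain ⟨⟨φ, t⟩, ⟨hφ, ht⟩, rfl⟩ := hx
  have hp := th_pos i
  by_cases hne : φ = th i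
  · subst hne
    exact ⟨t * (th i / 64), mul_nonneg ht.1 (by positivity), rfl⟩
  · exfalso
    have h1 := PP_sep he hφ hne
    have h2 := hh_ge hp.le (th_le i)
    rw [Metric.mem_ball] at hd
    have hφ0 := Th_nonneg hφ
    have h3 : dist (PP e φ + (t * (φ / 64)) • w φ) (PP e φ) ≤ φ / 64 := by
      rw [dist_eq_norm, add_sub_cancel_left, norm_smul, hw, mul_one, Real.norm_of_nonneg
        (mul_nonneg ht.1 (by positivity))]
      nlinarith [ht.1, ht.2]
    have h4 := dist_triangle (PP e (th i)) (PP e φ + (t * (φ / 64)) • w φ) (PP e φ)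
    rw [dist_comm (PP e (th i)) (PP e φ + (t * (φ / 64)) • w φ)] at h4
    have h5 : dist (PP e φ + (t * (φ / 64)) • w φ) (PP e (th i)) < 1 - hh (th i) := hd
    linarith

/-- Near the centre `i` the tree is a tripod. -/
theorem SS_near {e : Fin 3 → E} (he : Orthonormal ℝ e) (i : ℕ) :
    SS e ∩ Metric.ball (PP e (th i)) (1 - hh (th i)) =
      {x | ∃ u ∈ FF e i, ∃ t : ℝ, 0 ≤ t ∧ x = PP e (th i) + t • u} ∩
        Metric.ball (PP e (th i)) (1 - hh (th i)) := by
  have hp := th_pos i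
  have hl := th_le i
  ext x
  constructor
  · rintro ⟨hx, hb⟩
    refine ⟨?_, hb⟩
    rcases hx with hx | hx | hx | hx
    · exfalso
      have h1 := norm_KK he hx
      rw [Metric.mem_ball, dist_eq_norm] at hb
      have h2 := norm_add_le (PP e (th i)) (x - PP e (th i))
      rw [add_sub_cancel, norm_PP he] at h2
      linarith
    · obtain ⟨t, ht, h⟩ := Leg_near he i (fun _ => norm_ff he) hx hb
      exact ⟨ff e, by rw [mem_FF]; simp, t, ht, h⟩
    · obtain ⟨t, ht, h⟩ := Leg_near he i (fun θ => norm_ww he (by norm_num) θ) hx hb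
      exact ⟨ww e 1 (th i), by rw [mem_FF]; simp, t, ht, h⟩
    · obtain ⟨t, ht, h⟩ := Leg_near he i (fun θ => norm_ww he (by norm_num) θ) hx hb
      exact ⟨ww e (-1) (th i), by rw [mem_FF]; simp, t, ht, h⟩
  · rintro ⟨⟨u, hu, t, ht, rfl⟩, hb⟩
    refine ⟨?_, hb⟩
    have hu1 := FF_norm he i hu
    have h1 : t < 1 - hh (th i) := by
      rwa [Metric.mem_ball, dist_eq_norm, add_sub_cancel_left, norm_smul, hu1, mul_one,
        Real.norm_of_nonneg ht] at hb
    have h2 := hh_ge hp.le hl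
    have h3 : t ≤ th i / 64 := by linarith
    have h4 : 0 < th i / 64 := by positivity
    have h5 : t / (th i / 64) ∈ Icc (0:ℝ) 1 := ⟨by positivity, (div_le_one h4).mpr h3⟩
    have h6 : t / (th i / 64) * (th i / 64) = t := div_mul_cancel₀ t h4.ne'
    have hmem : ∀ w : ℝ → E, PP e (th i) + t • w (th i) ∈ Leg e w := by
      intro w
      refine ⟨(th i, t / (th i / 64)), ⟨Or.inr ⟨i, rfl⟩, h5⟩, ?_⟩
      show PP e (th i) + (t / (th i / 64) * (th i / 64)) • w (th i) = _
      rw [h6]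
    rw [mem_FF] at hu
    rcases hu with rfl | rfl | rfl
    · exact Or.inr (Or.inl (hmem fun _ => ff e))
    · exact Or.inr (Or.inr (Or.inl (hmem (ww e 1))))
    · exact Or.inr (Or.inr (Or.inr (hmem (ww e (-1)))))

lemma PP_mem {e : Fin 3 → E} (i : ℕ) : PP e (th i) ∈ SS e :=
  Or.inr (Or.inl ⟨(th i, 0), ⟨Or.inr ⟨i, rfl⟩, le_rfl, zero_le_one⟩, by simp⟩)

lemma PP_ball {e : Fin 3 → E} (he : Orthonormal ℝ e) (i : ℕ) :
    PP e (th i) ∈ Metric.ball (0 : E) 1 := by
  rw [mem_ball_zero_iff, norm_PP he]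
  exact hh_lt (th_pos i) (th_le i)

lemma PP_not_mem {e : Fin 3 → E} (he : Orthonormal ℝ e) (i : ℕ) : PP e (th i) ∉ AA e := by
  intro h
  have h1 := AA_ball he
  have h2 : PP e (th i) ∈ AA e ∩ Metric.ball 0 1 := ⟨h, PP_ball he i⟩
  rw [h1] at h2
  exact h2

end Pool.Agent.Helper877_Ball
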